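import Mathlib
import Pool.Agent.Helper967.TR7

set_option autoImplicit false

/-! For almost all `σ ∈ Gal(ℚ^tr/ℚ)` the first-order theory of the fixed ring `ℤ^tr(σ)` is
undecidable. -/

namespace Pool.Agent.Results.MP_96f494_lc.FixedRings

open MeasureTheory Pool.Agent.Helper967.TR

/-- `Gal(ℚ^tr/ℚ)` (with the Krull topology and its Borel sets) carries a normalised Haar measure,
and for every normalised Haar measure `μ` on it the theory of the ring `ℤ^tr(σ)` in the language
of rings is undecidable for `μ`-almost all `σ`. -/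
theorem result [MeasurableSpace Gal(Qtr/ℚ)] [BorelSpace Gal(Qtr/ℚ)] :
    (∃ μ : Measure Gal(Qtr/ℚ), μ.IsHaarMeasure ∧ IsProbabilityMeasure μ) ∧
    ∀ μ : Measure Gal(Qtr/ℚ), μ.IsHaarMeasure → IsProbabilityMeasure μ →
      ∀ᵐ σ ∂μ, ¬ DecidableTheory (fixedRing σ) := by
  refine ⟨⟨Measure.haarMeasure ⊤, inferInstance, ⟨?_⟩⟩, ?_⟩
  · exact Measure.haarMeasure_self
  · intro μ hμ hμ'
    filter_upwards [ae_good μ] with σ hσ
    obtain ⟨h1, r, hr, hr'⟩ := hσ
    exact undecidable (jrdata σ h1 r hr hr')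

end Pool.Agent.Results.MP_96f494_lc.FixedRings
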